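import Pool.Agent.Lib.MP_6c69fd_co_h13.ExcessP

/-!
# MP_6c69fd_co (Kupitz-Perles): sets without balanced lines have many points on four median lines

`cr` and `imb` (in `Pool/Agent/Lib/MP_6c69fd_co_h13/Primal.lean`) are the orientation form and the
imbalance exactly as in the frozen statement `S09343`.  The proof works in the dual arrangement of
lines; see the files of `Pool/Agent/Lib/MP_6c69fd_co_h13/`:

* `Touch.lean`: a dual line through a vertex of the median level crosses the level there or touches
  it there; a line which touches the level somewhere and crosses it only at the vertex `x` is the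
  steepest or the flattest line through `x`, so there are at most two such lines for each `x`;
* `Excess.lean`: a line crosses the median level of an odd number of lines an odd number of times;
  counting the touching lines at the vertices of the median level (at least `t - 1` at each);
* `ExcessP.lean`: the translation to point sets, and the reduction of an even number of points to
  an odd one.
-/

set_option autoImplicit false

namespace Pool.Agent.Results.MP_6c69fd_co.FourfoldPoints

open Finset _root_.MP_6c69fd_co

/-- Let `t ≥ 4` and let `X` be a finite set of at least two points in the plane such that every line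
spanned by `X` has imbalance at least `t`.  Then there is a nonempty finite set `D` of pairwise
nonparallel lines, given by pairs `a = (p, q)` of different points of `X`, each of which contains at
least `t` points of `X` and has at most `|X| / 2` points of `X` strictly on each side, such that
`2 ^ ⌊t/2⌋ ≤ 4 (|D| + 2)` and `t |D| ≤ 6 |D| + ∑ p ∈ X, max (d(p) - 3, 0)`, where `d(p)` is the
number of lines of `D` through `p` (the subtraction below is that of natural numbers). -/
theorem result (X : Finset (ℝ × ℝ)) (t : ℕ) (ht : 4 ≤ t) (hX : 2 ≤ X.card)
    (h : ∀ p ∈ X, ∀ q ∈ X, p ≠ q → (t : ℤ) ≤ imb X p q) :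
    ∃ D : Finset ((ℝ × ℝ) × (ℝ × ℝ)), D.Nonempty ∧ 2 ^ (t / 2) ≤ 4 * (D.card + 2) ∧
      (∀ a ∈ D, a.1 ∈ X ∧ a.2 ∈ X ∧ a.1 ≠ a.2 ∧
        t ≤ (X.filter (fun r => cr a.1 a.2 r = 0)).card ∧
        2 * (X.filter (fun r => 0 < cr a.1 a.2 r)).card ≤ X.card ∧
        2 * (X.filter (fun r => cr a.1 a.2 r < 0)).card ≤ X.card) ∧
      (∀ a ∈ D, ∀ b ∈ D, a ≠ b →
        (a.2.1 - a.1.1) * (b.2.2 - b.1.2) - (a.2.2 - a.1.2) * (b.2.1 - b.1.1) ≠ 0) ∧
      t * D.card ≤ 6 * D.card +
        ∑ p ∈ X, ((D.filter (fun a => cr a.1 a.2 p = 0)).card - 3) :=
  excess_gen X t ht hX h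

end Pool.Agent.Results.MP_6c69fd_co.FourfoldPoints
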