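import Pool.Agent.Lib.MP_6c69fd_co_h13.Primal

/-!
# MP_6c69fd_co (Kupitz-Perles): sets without balanced lines have exponentially many heavy lines

`cr` and `imb` (in `Pool/Agent/Lib/MP_6c69fd_co_h13/Primal.lean`) are the orientation form and the
imbalance exactly as in the frozen statement `S09343`.  The proof works in the dual arrangement of
lines; see the files of `Pool/Agent/Lib/MP_6c69fd_co_h13/`:

* `Level.lean`: levels of an arrangement of lines, the local maximum lemma;
* `Zone.lean`: upper and lower vertices in the middle zone; bounded faces have three vertices, so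
  the numbers of these vertices double from level to level;
* `Pieces.lean`: between two upper vertices the lowest level of the zone is convex, its lines cross
  pairwise there, hence pass through different vertices of the middle level elsewhere;
* `Count.lean`: the lens lemma, the reflection and the exponential lower bound;
* `Primal.lean`: the translation to point sets.
-/

set_option autoImplicit false

namespace Pool.Agent.Results.MP_6c69fd_co.HeavyLines

open Finset _root_.MP_6c69fd_co

/-- Let `X` be a finite set of at least two points in the plane such that every line spanned by `X`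
has imbalance at least `t`.  Then there are at least `2 ^ ⌊t/2⌋ / 4 - 2` pairwise nonparallel lines,
given by pairs `a = (p, q)` of different points of `X`, each of which contains at least `2 t - 1`
points of `X` and has at most `(|X| - t + 1) / 2` points of `X` strictly on each side. -/
theorem result (X : Finset (ℝ × ℝ)) (t : ℕ) (hX : 2 ≤ X.card)
    (h : ∀ p ∈ X, ∀ q ∈ X, p ≠ q → (t : ℤ) ≤ imb X p q) :
    ∃ T : Finset ((ℝ × ℝ) × (ℝ × ℝ)), 2 ^ (t / 2) ≤ 4 * (T.card + 2) ∧
      (∀ a ∈ T, a.1 ∈ X ∧ a.2 ∈ X ∧ a.1 ≠ a.2 ∧
        2 * t - 1 ≤ (X.filter (fun r => cr a.1 a.2 r = 0)).card ∧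
        2 * (X.filter (fun r => 0 < cr a.1 a.2 r)).card + t ≤ X.card + 1 ∧
        2 * (X.filter (fun r => cr a.1 a.2 r < 0)).card + t ≤ X.card + 1) ∧
      (∀ a ∈ T, ∀ b ∈ T, a ≠ b →
        (a.2.1 - a.1.1) * (b.2.2 - b.1.2) - (a.2.2 - a.1.2) * (b.2.1 - b.1.1) ≠ 0) :=
  deep_lines X t hX h

end Pool.Agent.Results.MP_6c69fd_co.HeavyLines
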