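import Pool.Agent.Lib.MP_6c69fd_co_h13.Primal

/-!
# MP_6c69fd_co (Kupitz-Perles): sets without `k + 1` collinear points

`cr` and `imb` (in `Pool/Agent/Lib/MP_6c69fd_co_h13/Primal.lean`) are the orientation form and the
imbalance exactly as in the frozen statement `S09343`.
-/

set_option autoImplicit false

namespace Pool.Agent.Results.MP_6c69fd_co.NoLongLine

open Finset _root_.MP_6c69fd_co

/-- If no line contains more than `k` points of the finite set `X` of at least two points, then some
line spanned by `X` has imbalance at most `k / 2`. -/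
theorem result (X : Finset (ℝ × ℝ)) (k : ℕ) (hX : 2 ≤ X.card)
    (hk : ∀ p ∈ X, ∀ q ∈ X, p ≠ q → (X.filter (fun r => cr p q r = 0)).card ≤ k) :
    ∃ p ∈ X, ∃ q ∈ X, p ≠ q ∧ 2 * imb X p q ≤ k :=
  no_long_line X k hX hk

end Pool.Agent.Results.MP_6c69fd_co.NoLongLine
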